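import Mathlib
import Pool.Agent.V11202.Rook.Step
import Pool.Agent.V11202.Rook.Comb

namespace Pool.Agent.Results.MP_e8bb44_al.RookPlacements

open Matrix Pool.Agent.V11202.Rook

/-- The algebra `J`: matrices supported strictly above the diagonal blocks of the composition
`c` of `n`; `c.index i` is the number of the block that contains `i`. -/
def J (F : Type*) [Field F] {n : ℕ} (c : Composition n) :
    Submodule F (Matrix (Fin n) (Fin n) F) where
  carrier := {x | ∀ i j, ¬ c.index i < c.index j → x i j = 0}
  add_mem' := by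
    intro x y hx hy i j hij
    rw [Matrix.add_apply, hx i j hij, hy i j hij, add_zero]
  zero_mem' := fun _ _ _ => rfl
  smul_mem' := by
    intro t x hx i j hij
    rw [Matrix.smul_apply, hx i j hij, smul_zero]

/-- The block-diagonal subgroup `R = GL(n_1) × ... × GL(n_s)`. -/
def R (F : Type*) [Field F] {n : ℕ} (c : Composition n) : Set (Matrix (Fin n) (Fin n) F) :=
  {r | IsUnit r ∧ ∀ i j, c.index i ≠ c.index j → r i j = 0}

/-- The unipotent radical `N = 1 + J`. -/
def N (F : Type*) [Field F] {n : ℕ} (c : Composition n) : Set (Matrix (Fin n) (Fin n) F) :=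
  {a | a - 1 ∈ J F c}

/-- `l'` is equivalent to `l`: for some `r ∈ R`, `a, b ∈ N` one has
`l' x = l (b r⁻¹ x r a)` for all `x ∈ J`. -/
def Equivalent {F : Type*} [Field F] {n : ℕ} (c : Composition n)
    (l l' : Module.Dual F (J F c)) : Prop :=
  ∃ r ∈ R F c, ∃ a ∈ N F c, ∃ b ∈ N F c, ∀ x : J F c, ∃ y : J F c,
    (y : Matrix (Fin n) (Fin n) F) = b * r⁻¹ * (x : Matrix (Fin n) (Fin n) F) * (r * a) ∧
      l' x = l y

/-- The positive roots `(i, j)`, `i < j`, whose matrix unit lies in `J`. -/
def DeltaJ (F : Type*) [Field F] {n : ℕ} (c : Composition n) : Set (Fin n × Fin n) :=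
  {α | α.1 < α.2 ∧ Matrix.single α.1 α.2 (1 : F) ∈ J F c}

/-- Rook placements: subsets of `Δ_J` with at most one root in each row and in each column. -/
def IsRook (F : Type*) [Field F] {n : ℕ} (c : Composition n) (D : Finset (Fin n × Fin n)) :
    Prop :=
  (∀ α ∈ D, α ∈ DeltaJ F c) ∧ (∀ α ∈ D, ∀ γ ∈ D, α.1 = γ.1 → α = γ) ∧
    (∀ α ∈ D, ∀ γ ∈ D, α.2 = γ.2 → α = γ)

/-- The coordinate form `E_α^*` on `J`. -/
def coord (F : Type*) [Field F] {n : ℕ} (c : Composition n) (α : Fin n × Fin n) :
    Module.Dual F (J F c) where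
  toFun x := (x : Matrix (Fin n) (Fin n) F) α.1 α.2
  map_add' _ _ := rfl
  map_smul' _ _ := rfl

/-- The form `λ_D = Σ_{α ∈ D} E_α^*`. -/
def lam (F : Type*) [Field F] {n : ℕ} (c : Composition n) (D : Finset (Fin n × Fin n)) :
    Module.Dual F (J F c) :=
  ∑ α ∈ D, coord F c α

section proof

variable {F : Type*} [Field F] {n : ℕ} (c : Composition n)

/-- the block function with values in `ℕ` -/
def be (i : Fin n) : ℕ := (c.index i : ℕ)

theorem be_lt {i j : Fin n} : be c i < be c j ↔ c.index i < c.index j := Iff.rfl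

theorem be_eq {i j : Fin n} : be c i = be c j ↔ c.index i = c.index j := by
  simp [be, Fin.ext_iff]

theorem lt_of_be_lt {i j : Fin n} (h : be c i < be c j) : i < j := by
  have h1 := c.lt_sizeUpTo_index_succ i
  have h2 := c.sizeUpTo_index_le j
  have h3 : c.sizeUpTo (c.index i).succ ≤ c.sizeUpTo (c.index j) :=
    c.monotone_sizeUpTo (by simpa [be] using h)
  rw [Fin.lt_def]
  omega

theorem mem_J {x : Matrix (Fin n) (Fin n) F} : x ∈ J F c ↔ SUp (be c) x := by
  constructor
  · intro h i j hij
    exact h i j (by rw [← be_lt]; omega)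
  · intro h i j hij
    exact h i j (by rw [← be_lt] at hij; omega)

/-- the matrix of a form -/
def mat (l : Module.Dual F (J F c)) : Matrix (Fin n) (Fin n) F :=
  Matrix.of fun j i => if h : be c i < be c j then
    l ⟨Matrix.single i j 1, by
      rw [mem_J]
      intro i' j' hij
      rw [Matrix.single_apply, if_neg]
      rintro ⟨rfl, rfl⟩
      omega⟩ else 0

theorem single_mem {i j : Fin n} (h : be c i < be c j) (t : F) :
    Matrix.single i j t ∈ J F c := by
  rw [mem_J]
  intro i' j' hij
  rw [Matrix.single_apply, if_neg]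
  rintro ⟨rfl, rfl⟩
  omega

theorem apply_eq_trace (l : Module.Dual F (J F c)) (x : J F c) :
    l x = (mat c l * (x : Matrix (Fin n) (Fin n) F)).trace := by
  classical
  have hx : x = ∑ i, ∑ j, if h : be c i < be c j then
      (x : Matrix (Fin n) (Fin n) F) i j • (⟨Matrix.single i j 1, single_mem c h 1⟩ : J F c)
      else 0 := by
    apply Subtype.ext
    rw [Submodule.coe_sum]
    conv_lhs => rw [Matrix.matrix_eq_sum_single (x : Matrix (Fin n) (Fin n) F)]
    refine Finset.sum_congr rfl fun i _ => ?_
    rw [Submodule.coe_sum]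
    refine Finset.sum_congr rfl fun j _ => ?_
    split_ifs with h
    · rw [Submodule.coe_smul, Matrix.smul_single, smul_eq_mul, mul_one]
    · rw [((mem_J c).1 x.2) i j (by omega), Matrix.single_zero]; rfl
  conv_lhs => rw [hx]
  rw [map_sum, Matrix.trace]
  simp only [Matrix.diag_apply, Matrix.mul_apply]
  rw [Finset.sum_comm]
  refine Finset.sum_congr rfl fun i _ => ?_
  rw [map_sum]
  refine Finset.sum_congr rfl fun j _ => ?_
  simp only [mat, Matrix.of_apply]
  split_ifs with h
  · rw [map_smul, smul_eq_mul, mul_comm]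
  · simp

theorem trace_zero {x y : Matrix (Fin n) (Fin n) F} (hx : Up (be c) x) (hy : SUp (be c) y) :
    (x * y).trace = 0 := by
  have := hx.mul_sup hy
  rw [Matrix.trace]
  exact Finset.sum_eq_zero fun i _ => this i i le_rfl

theorem up_of_trace {x : Matrix (Fin n) (Fin n) F}
    (h : ∀ y : Matrix (Fin n) (Fin n) F, SUp (be c) y → (x * y).trace = 0) : Up (be c) x := by
  intro j i hij
  have := h (Matrix.single i j 1) ((mem_J c).1 (single_mem c hij 1))
  rw [Matrix.trace_mul_single] at this
  simpa using this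

theorem sup_of_bd {x : Matrix (Fin n) (Fin n) F} (hx : Up (be c) x) (h : bd (be c) x = 1) :
    SUp (be c) (x - 1) := by
  intro i j hij
  rcases lt_or_eq_of_le hij with h' | h'
  · have hne : i ≠ j := by rintro rfl; omega
    rw [Matrix.sub_apply, hx i j h']; simp [hne]
  · have := congrFun (congrFun h i) j
    simp only [bd, Matrix.of_apply] at this
    rw [if_pos h'.symm] at this
    rw [Matrix.sub_apply, this, sub_self]

theorem up_bd (x : Matrix (Fin n) (Fin n) F) : Up (be c) (bd (be c) x) := by
  intro i j hij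
  simp only [bd, Matrix.of_apply]
  rw [if_neg (by omega)]

theorem bd_bd (x : Matrix (Fin n) (Fin n) F) : bd (be c) (bd (be c) x) = bd (be c) x := by
  ext i j
  simp only [bd, Matrix.of_apply]
  split_ifs <;> rfl

theorem equivalent_of_E {l l' : Module.Dual F (J F c)} (h : E (be c) (mat c l) (mat c l')) :
    Equivalent c l l' := by
  obtain ⟨g, h, hg, hh, hs, hu⟩ := h
  have e1 : bd (be c) g * bd (be c) h = 1 := by rw [← bd_mul hg hh, bd_of_sup hs]
  have e2 : bd (be c) h * bd (be c) g = 1 := mul_eq_one_comm.1 e1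
  have hinv : (bd (be c) g)⁻¹ = bd (be c) h := Matrix.inv_eq_right_inv e1
  refine ⟨bd (be c) g, ⟨IsUnit.of_mul_eq_one _ e1, ?_⟩, bd (be c) h * g, ?_,
    h * bd (be c) g, ?_, ?_⟩
  · intro i j hij
    simp only [bd, Matrix.of_apply]
    rw [if_neg]
    rw [be_eq]; exact hij
  · rw [N, Set.mem_ofPred_eq, mem_J]
    refine sup_of_bd c ((up_bd c h).mul hg) ?_
    rw [bd_mul (up_bd c h) hg, bd_bd, e2]
  · rw [N, Set.mem_ofPred_eq, mem_J]
    refine sup_of_bd c (hh.mul (up_bd c g)) ?_
    rw [bd_mul hh (up_bd c g), bd_bd, e2]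
  · intro x
    have hx := (mem_J c).1 x.2
    refine ⟨⟨h * (x : Matrix (Fin n) (Fin n) F) * g, ?_⟩, ?_, ?_⟩
    · rw [mem_J]; exact (hh.mul_sup hx).mul_up hg
    · rw [hinv]
      calc h * (x : Matrix (Fin n) (Fin n) F) * g
          = h * 1 * (x : Matrix (Fin n) (Fin n) F) * (1 * g) := by rw [mul_one, one_mul]
        _ = _ := by rw [← e1]; noncomm_ring
    · rw [apply_eq_trace, apply_eq_trace]
      have h1 := trace_zero c hu hx
      rw [sub_mul, Matrix.trace_sub, sub_eq_zero] at h1
      rw [h1]
      simp only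
      rw [Matrix.trace_mul_comm (mat c l) (h * (x : Matrix (Fin n) (Fin n) F) * g)]
      rw [show h * (x : Matrix (Fin n) (Fin n) F) * g * mat c l =
        (h * (x : Matrix (Fin n) (Fin n) F)) * (g * mat c l) by noncomm_ring]
      rw [Matrix.trace_mul_comm (h * (x : Matrix (Fin n) (Fin n) F)) (g * mat c l)]
      congr 1
      noncomm_ring

theorem E_of_equivalent {l l' : Module.Dual F (J F c)} (h : Equivalent c l l') :
    E (be c) (mat c l) (mat c l') := by
  obtain ⟨r, ⟨hr1, hr2⟩, a, ha, b, hb, hxy⟩ := h
  rw [N, Set.mem_ofPred_eq, mem_J] at ha hb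
  have hrU : Up (be c) r := by
    intro i j hij
    exact hr2 i j (by rw [Ne, ← be_eq]; omega)
  have hriU := up_inv hrU hr1
  have haU : Up (be c) a := by
    have := (Up.one (F := F) (β := be c)).add ha.up
    rwa [add_sub_cancel] at this
  have hbU : Up (be c) b := by
    have := (Up.one (F := F) (β := be c)).add hb.up
    rwa [add_sub_cancel] at this
  have hrr : r * r⁻¹ = 1 := Matrix.mul_nonsing_inv _ ((Matrix.isUnit_iff_isUnit_det _).1 hr1)
  refine ⟨r * a, b * r⁻¹, hrU.mul haU, hbU.mul hriU, ?_, ?_⟩
  · have e : r * a * (b * r⁻¹) - 1 = r * ((a - 1) * b + (b - 1)) * r⁻¹ := by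
      have : r * ((a - 1) * b + (b - 1)) * r⁻¹ = r * a * (b * r⁻¹) - r * r⁻¹ := by noncomm_ring
      rw [this, hrr]
    rw [e]
    exact (hrU.mul_sup ((ha.mul_up hbU).add hb)).mul_up hriU
  · refine up_of_trace c fun x hx => ?_
    obtain ⟨y, hy1, hy2⟩ := hxy ⟨x, (mem_J c).2 hx⟩
    rw [apply_eq_trace, apply_eq_trace, hy1] at hy2
    simp only at hy2
    rw [sub_mul, Matrix.trace_sub, sub_eq_zero, hy2]
    rw [Matrix.trace_mul_comm (mat c l) _]
    rw [show b * r⁻¹ * x * (r * a) * mat c l = (b * r⁻¹ * x) * ((r * a) * mat c l) by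
      noncomm_ring]
    rw [Matrix.trace_mul_comm (b * r⁻¹ * x) _]
    congr 1
    noncomm_ring

theorem mem_DeltaJ {α : Fin n × Fin n} : α ∈ DeltaJ F c ↔ be c α.1 < be c α.2 := by
  constructor
  · rintro ⟨_, h⟩
    by_contra hcon
    have := (mem_J c).1 h α.1 α.2 (by omega)
    rw [Matrix.single_apply_same] at this
    exact one_ne_zero this
  · intro h
    exact ⟨lt_of_be_lt c h, single_mem c h 1⟩

theorem rk_of_isRook {D : Finset (Fin n × Fin n)} (h : IsRook F c D) : Rk (be c) D := by
  obtain ⟨h1, h2, h3⟩ := h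
  refine ⟨?_, ?_, ?_⟩
  · intro i p hip
    exact (mem_DeltaJ c).1 (h1 _ hip)
  · intro i p q hp hq
    exact congrArg Prod.snd (h2 _ hp _ hq rfl)
  · intro i k p hi hk
    exact congrArg Prod.fst (h3 _ hi _ hk rfl)

theorem mat_lam {D : Finset (Fin n × Fin n)} (h : Rk (be c) D) : mat c (lam F c D) = LD F D := by
  ext p i
  simp only [mat, Matrix.of_apply, LD, lam]
  split_ifs with h1 h2 h2
  · rw [LinearMap.sum_apply, Finset.sum_eq_single (i, p)]
    · simp [coord]
    · intro α _ hne
      simp only [coord, LinearMap.coe_mk, AddHom.coe_mk]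
      rw [Matrix.single_apply, if_neg]
      rintro ⟨e1, e2⟩
      exact hne (Prod.ext e1.symm e2.symm)
    · intro hcon; exact absurd h2 hcon
  · rw [LinearMap.sum_apply]
    refine Finset.sum_eq_zero fun α hα => ?_
    simp only [coord, LinearMap.coe_mk, AddHom.coe_mk]
    rw [Matrix.single_apply, if_neg]
    rintro ⟨e1, e2⟩
    apply h2
    rw [e1, e2]
    exact hα
  · exact absurd (h.lt i p h2) h1
  · rfl

end proof

theorem result (F : Type*) [Field F] (n : ℕ) (c : Composition n) :
    (∀ l : Module.Dual F (J F c), ∃ D : Finset (Fin n × Fin n),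
      IsRook F c D ∧ Equivalent c l (lam F c D)) ∧
    (∀ D D' : Finset (Fin n × Fin n), IsRook F c D → IsRook F c D' →
      (Equivalent c (lam F c D) (lam F c D') ↔
        ∃ w : Equiv.Perm (Fin n), (∀ i, c.index (w i) = c.index i) ∧
          D' = D.image fun α => (w α.1, w α.2))) := by
  classical
  refine ⟨?_, ?_⟩
  · intro l
    obtain ⟨L', hE, hcl⟩ := exists_clean (be c) (mat c l)
    set D : Finset (Fin n × Fin n) := Finset.univ.filter fun α => Piv (be c) L' α.2 α.1 with hD
    have hmem : ∀ i p, (i, p) ∈ D ↔ Piv (be c) L' p i := by intro i p; simp [hD]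
    have hrk : Rk (be c) D := by
      refine ⟨?_, ?_, ?_⟩
      · intro i p h; exact ((hmem i p).1 h).1
      · intro i p q h1 h2
        have k1 := (hmem i p).1 h1
        have k2 := (hmem i q).1 h2
        by_contra hne
        have := k1.2.2.2 q (Ne.symm hne) k2.1
        rw [k2.2.1] at this
        exact one_ne_zero this
      · intro i k p h1 h2
        exact piv_uniq ((hmem i p).1 h1) ((hmem k p).1 h2)
    have hE' : E (be c) (mat c l) (mat c (lam F c D)) := by
      refine hE.trans (E.of_up ?_)
      rw [mat_lam c hrk]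
      intro p i hip
      rw [Matrix.sub_apply, sub_eq_zero]
      simp only [LD, Matrix.of_apply, hmem]
      split_ifs with h
      · exact h.2.1.symm
      · rcases hcl i with h0 | ⟨q, hq⟩
        · exact (h0 p hip).symm
        · refine (hq.2.2.2 p ?_ hip).symm
          rintro rfl
          exact h hq
    refine ⟨D, ⟨?_, ?_, ?_⟩, equivalent_of_E c hE'⟩
    · intro α hα
      exact (mem_DeltaJ c).2 (hrk.lt _ _ hα)
    · rintro ⟨i, p⟩ hα ⟨k, q⟩ hγ h
      simp only at h
      subst h
      rw [hrk.row i p q hα hγ]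
    · rintro ⟨i, p⟩ hα ⟨k, q⟩ hγ h
      simp only at h
      subst h
      rw [hrk.col i k p hα hγ]
  · intro D D' hD hD'
    have hrk := rk_of_isRook c hD
    have hrk' := rk_of_isRook c hD'
    constructor
    · intro h
      have hE := E_of_equivalent c h
      rw [mat_lam c hrk, mat_lam c hrk'] at hE
      obtain ⟨w, hw1, hw2⟩ := exists_conj hrk hrk' hE
      refine ⟨w, fun i => (be_eq c).1 (hw1 i), ?_⟩
      ext ⟨u, v⟩
      rw [Finset.mem_image]
      constructor
      · intro h
        refine ⟨(w.symm u, w.symm v), ?_, by simp⟩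
        rw [hw2]; simpa using h
      · rintro ⟨⟨x, y⟩, hxy, heq⟩
        rw [← heq]
        exact (hw2 x y).1 hxy
    · rintro ⟨w, hw, rfl⟩
      apply equivalent_of_E
      rw [mat_lam c hrk, mat_lam c hrk']
      have hbw : ∀ i, be c (w.symm i) = be c i := by
        intro i
        rw [be_eq]
        have := hw (w.symm i)
        rw [Equiv.apply_symm_apply] at this
        exact this.symm
      refine ⟨(1 : Matrix (Fin n) (Fin n) F).submatrix w.symm id,
        (1 : Matrix (Fin n) (Fin n) F).submatrix id w.symm, ?_, ?_, ?_, ?_⟩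
      · intro i j hij
        rw [Matrix.submatrix_apply, Matrix.one_apply_ne]
        rintro h
        rw [id] at h
        rw [← h, hbw] at hij
        omega
      · intro i j hij
        rw [Matrix.submatrix_apply, Matrix.one_apply_ne]
        rintro h
        rw [id] at h
        rw [h, hbw] at hij
        omega
      · have : (1 : Matrix (Fin n) (Fin n) F).submatrix w.symm id *
            (1 : Matrix (Fin n) (Fin n) F).submatrix id w.symm = 1 := by
          ext i j
          simp [Matrix.mul_apply, Matrix.one_apply]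
        rw [this, sub_self]
        exact SUp.zero
      · have : (1 : Matrix (Fin n) (Fin n) F).submatrix w.symm id * LD F D *
            (1 : Matrix (Fin n) (Fin n) F).submatrix id w.symm =
            LD F (D.image fun α => (w α.1, w α.2)) := by
          ext p i
          have h1 : ∀ q, ((1 : Matrix (Fin n) (Fin n) F).submatrix w.symm id * LD F D) p q =
              LD F D (w.symm p) q := by
            intro q
            simp [Matrix.mul_apply, Matrix.one_apply]
          rw [Matrix.mul_apply]
          simp only [h1, Matrix.submatrix_apply, id, Matrix.one_apply, mul_ite, mul_one, mul_zero,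
            Finset.sum_ite_eq', Finset.mem_univ, if_true]
          simp only [LD, Matrix.of_apply]
          congr 1
          rw [Finset.mem_image]
          apply propext
          constructor
          · intro h
            exact ⟨_, h, by simp⟩
          · rintro ⟨⟨x, y⟩, hxy, heq⟩
            simp only [Prod.mk.injEq] at heq
            rw [← heq.1, ← heq.2]
            simpa using hxy
        rw [this, sub_self]
        exact Up.zero

end Pool.Agent.Results.MP_e8bb44_al.RookPlacements
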